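import Pool.Agent.WCT.Final

namespace Pool.Agent.Results.MP_65e9d7_lc.ThinCoanalytic

open Cardinal MeasureTheory Pool.Agent.WCT

/-- Tukey types of the weakly compact subsets of the unit ball (with almost inclusion) given by thin coanalytic sets.

(1) For every infinite coanalytic `D ⊆ 2^ω` without uncountable compact subsets there is a separable non-reflexive Banach space
`X` such that `AK(B_X)` is Tukey equivalent to the finite subsets of `D`.
(2) If `D` is coanalytic and `ℵ₀ < #D < 𝔠`, this `AK(B_X)` is equivalent to none of `ω`, `ω^ω`, `K(ℚ)`, `[𝔠]^{<ω}`.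
(3) So if all separable non-reflexive spaces have one of these four types then every uncountable coanalytic subset
of `2^ω` has cardinality `𝔠`. -/
theorem result :
    (∀ D : Set (ℕ → Bool), AnalyticSet Dᶜ → D.Infinite → (∀ F ⊆ D, IsCompact F → F.Countable) →
      ∃ (X : Type) (_ : NormedAddCommGroup X) (_ : NormedSpace ℝ X),
        SepNonRefl X ∧ TEq (AKr X) (po (Finset D))) ∧
    (∀ D : Set (ℕ → Bool), AnalyticSet Dᶜ → ℵ₀ < #D → #D < 𝔠 →
      ∃ (X : Type) (_ : NormedAddCommGroup X) (_ : NormedSpace ℝ X),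
        SepNonRefl X ∧ TEq (AKr X) (po (Finset D)) ∧ ¬ InList X) ∧
    ((∀ (X : Type) (_ : NormedAddCommGroup X) (_ : NormedSpace ℝ X), SepNonRefl X → InList X) →
      ∀ D : Set (ℕ → Bool), AnalyticSet Dᶜ → ¬ D.Countable → #D = 𝔠) := by
  have hmain : ∀ D : Set (ℕ → Bool), AnalyticSet Dᶜ → ℵ₀ < #D → #D < 𝔠 →
      ∃ (X : Type) (_ : NormedAddCommGroup X) (_ : NormedSpace ℝ X),
        SepNonRefl X ∧ TEq (AKr X) (po (Finset D)) ∧ ¬ InList X := by
    intro D hD h1 h2
    obtain ⟨X, i1, i2, h3, h4, h5, hh, h6, h7, h8, h9⟩ := main_card D hD h1 h2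
    refine ⟨X, i1, i2, ⟨h3, h4, h5⟩, hh, ?_⟩
    rintro (h | h | h | h)
    · exact h6 h
    · exact h7 h
    · exact h8 h
    · exact h9 h
  refine ⟨?_, hmain, ?_⟩
  · intro D hD hinf hthin
    obtain ⟨X, i1, i2, h3, h4, h5, h6⟩ := main_thin D hD hinf hthin
    exact ⟨X, i1, i2, ⟨h3, h4, h5⟩, h6⟩
  · intro hall D hD hunc
    by_contra hne
    have h1 : ℵ₀ < #D := by
      rw [← not_le, Cardinal.le_aleph0_iff_set_countable]
      exact hunc
    have h2 : #D < 𝔠 := lt_of_le_of_ne (by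
      have := Cardinal.mk_set_le D
      rwa [card_cantor] at this) hne
    obtain ⟨X, i1, i2, h3, -, h4⟩ := hmain D hD h1 h2
    exact h4 (hall X i1 i2 h3)

end Pool.Agent.Results.MP_65e9d7_lc.ThinCoanalytic
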